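import Pool.Agent.H.MP_53e59f_lc.SF.Stm

/-!
# Prefixes with the same joint content
-/

namespace Pool.Agent.SM

/-- The lengths `i' ≤ |u|` such that, for `j' = i + j - i' ≤ |v|`, the word `u[..i'] v[..j']` is a
permutation of the word `u[..i] v[..j]`. -/
def Same {α : Type} (u v : List α) (i j : ℕ) : Set ℕ :=
  {i' | i' ≤ u.length ∧ i' ≤ i + j ∧ i + j - i' ≤ v.length ∧
    (u.take i' ++ v.take (i + j - i')).Perm (u.take i ++ v.take j)}

end Pool.Agent.SM
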