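import Pool.Agent.H.MP_53e59f_lc.SG.Swp
import Pool.Agent.H.MP_53e59f_lc.SM.Defs

/-!
# The number of the sets of tokens
-/

namespace Pool.Agent.SM

open Pool.Agent.SF

/-- Every joint content is attained at most `k` times. -/
def Sparse {α : Type} (k : ℕ) (u v : List α) : Prop :=
  ∀ i j, i ≤ u.length → j ≤ v.length → (Same u v i j).ncard ≤ k

theorem Same_fin {α : Type} (u v : List α) (i j : ℕ) : (Same u v i j).Finite :=
  (Set.finite_Iic u.length).subset fun _ h => h.1

theorem tok_same {u v w : List ℕ} {x y : ℕ} (hx : Tk u v w x) (hy : Tk u v w y) :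
    y ∈ Same u v x (w.length - x) := by
  have h1 := hx.2.1
  have h2 := hy.2.1
  have e : x + (w.length - x) - y = w.length - y := by omega
  refine ⟨hy.1, by omega, ?_, ?_⟩
  · rw [e]
    exact hy.2.2.1
  · rw [e, List.perm_iff_count]
    intro z
    have h3 := Tk_count hx z
    have h4 := Tk_count hy z
    rw [List.count_append, List.count_append]
    omega

theorem count_Rs (s : ℕ) {u v : List ℕ} {k : ℕ} (h : Sparse k u v) (K : ℕ) :
    {S : Set ℕ | ∃ w : List ℕ, w.length = K ∧ (∀ a ∈ w, a < s) ∧ S = Rs u v w}.Finite ∧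
      {S : Set ℕ | ∃ w : List ℕ, w.length = K ∧ (∀ a ∈ w, a < s) ∧ S = Rs u v w}.ncard ≤
        (u.length + 1) * 2 ^ k + 1 := by
  classical
  let F : Finset (Set ℕ) := (Finset.range (u.length + 1)).biUnion fun i =>
    if K - i ≤ v.length then
      ((Same_fin u v i (K - i)).toFinset.powerset).image fun X : Finset ℕ => (X : Set ℕ)
    else ∅
  have hsub : {S : Set ℕ | ∃ w : List ℕ, w.length = K ∧ (∀ a ∈ w, a < s) ∧ S = Rs u v w} ⊆
      ((insert ∅ F : Finset (Set ℕ)) : Set (Set ℕ)) := by
    rintro S ⟨w, hw, -, rfl⟩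
    rw [Finset.mem_coe, Finset.mem_insert]
    rcases Set.eq_empty_or_nonempty (Rs u v w) with h0 | ⟨x, hx⟩
    · exact Or.inl h0
    · right
      have hx' : Tk u v w x := hx
      have h1 : K - x ≤ v.length := by
        rw [← hw]
        exact hx'.2.2.1
      refine Finset.mem_biUnion.2 ⟨x, Finset.mem_range.2 (Nat.lt_succ_of_le hx'.1), ?_⟩
      rw [if_pos h1]
      have hfin : (Rs u v w).Finite := (Set.finite_Iic u.length).subset fun _ h => h.1
      refine Finset.mem_image.2 ⟨hfin.toFinset, ?_, hfin.coe_toFinset⟩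
      rw [Finset.mem_powerset]
      intro y hy
      rw [Set.Finite.mem_toFinset] at hy ⊢
      rw [← hw]
      exact tok_same hx' hy
  refine ⟨(Finset.finite_toSet _).subset hsub, ?_⟩
  refine (Set.ncard_le_ncard hsub (Finset.finite_toSet _)).trans ?_
  rw [Set.ncard_coe_finset]
  refine (Finset.card_insert_le _ _).trans (Nat.add_le_add_right ?_ 1)
  refine (Finset.card_biUnion_le).trans ?_
  refine (Finset.sum_le_card_nsmul _ _ (2 ^ k) ?_).trans ?_
  · intro i hi
    have hi' := Finset.mem_range.1 hi
    split_ifs with h1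
    · refine Finset.card_image_le.trans ?_
      rw [Finset.card_powerset]
      refine Nat.pow_le_pow_right (by norm_num) ?_
      rw [← Set.ncard_eq_toFinset_card _ (Same_fin u v i (K - i))]
      exact h i (K - i) (by omega) h1
    · simp
  · rw [Finset.card_range, smul_eq_mul]

theorem Same_map {α β : Type} {f : α → β} (hf : Function.Injective f) (u v : List α) (i j : ℕ) :
    Same (u.map f) (v.map f) i j = Same u v i j := by
  ext i'
  unfold Same
  simp only [Set.mem_setOf_eq, List.length_map]
  rw [← List.map_take, ← List.map_take, ← List.map_take, ← List.map_take, ← List.map_append,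
    ← List.map_append, List.map_perm_map_iff hf]

theorem Sparse_map {α β : Type} {f : α → β} (hf : Function.Injective f) {k : ℕ} {u v : List α}
    (h : Sparse k u v) : Sparse k (u.map f) (v.map f) := by
  intro i j hi hj
  rw [List.length_map] at hi hj
  rw [Same_map hf]
  exact h i j hi hj

end Pool.Agent.SM
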