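import Pool.Agent.H.MP_53e59f_lc.SF.Fin
import Pool.Agent.H.MP_53e59f_lc.SM.Corr
import Pool.Agent.H.MP_53e59f_lc.SM.PT

/-!
# The theorem
-/

namespace Pool.Agent.SM

open Pool.Agent.SF
open Pool.Agent.H.MP_5be563_lc.PT

theorem final (c : ℕ) :
    ∃ f : Inst → Bool,
      Nonempty (Turing.TM2ComputableInPolyTime Inst.encode Computability.encodeBool f) ∧
      ∀ x : Inst, Sparse (c * Nat.log 2 x.encode.length) x.u x.v →
        (f x = true ↔ x.M.accepts ≠ {w | Sh x.u x.v w}) := by
  have hP : Poly (fun d : Dat => (SM.dec c d).1 || (SM.dec c d).2) := by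
    have := SM.poly_dec c
    fun_prop
  obtain ⟨M⟩ := hP.tm2_bool
  refine ⟨fun x => (SM.dec c x.dat).1 || (SM.dec c x.dat).2, ⟨?_⟩, ?_⟩
  · exact
      { tm := M.tm
        inputAlphabet := M.inputAlphabet
        outputAlphabet := M.outputAlphabet
        time := M.time
        outputsFun := fun x => M.outputsFun x.dat }
  · intro x hx
    obtain ⟨h1, h2⟩ := SM.dec_iff x hx
    rw [Bool.or_eq_true, h1, h2]
    constructor
    · rintro (⟨w, hw1, hw2⟩ | ⟨w, hw1, hw2⟩) he
      · exact hw2 (he ▸ hw1 : w ∈ ({w | Sh x.u x.v w} : Set _))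
      · exact hw1 (he ▸ (show w ∈ ({w | Sh x.u x.v w} : Set _) from hw2))
    · intro hne
      by_contra hcon
      push Not at hcon
      apply hne
      ext w
      constructor
      · intro hw
        exact hcon.1 w hw
      · intro hw
        by_contra h3
        exact hcon.2 w h3 hw

end Pool.Agent.SM
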